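import Mathlib

set_option autoImplicit false

/-! Graphs of large girth from a division algebra of degree four with an involution of the second
kind.  `K` is a finite field of characteristic two (`K = F_(q^8)`) with an automorphism `φ` of
order eight, `σ = φ²`, `z a = σ(a) z`, `z⁴ = X` central; elements are written as `4 × 4` matrices
over `K[X]`.  Index notation in comments: `x_i = φ^i(x)`, `i` modulo 8. -/

namespace Pool.Agent.Helper51.GT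

open Polynomial

/-- `4 × 4` matrices over `K[X]`. -/
abbrev Mat (K : Type) [Field K] := Matrix (Fin 4) (Fin 4) K[X]

/-- `4 × 4` matrices over `K⟦X⟧`. -/
abbrev PMat (K : Type) [Field K] := Matrix (Fin 4) (Fin 4) (PowerSeries K)

/-- The power `φ^i` as a ring homomorphism. -/
def fr {K : Type} [Field K] (φ : K ≃+* K) (i : ℕ) : K →+* K := (φ : K →+* K) ^ i

/-- Characteristic two and `φ⁸ = 1`. -/
structure Dat {K : Type} [Field K] (φ : K ≃+* K) : Prop where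
  two : (2 : K) = 0
  ord : ∀ x, fr φ 8 x = x

/-- The set of all `x` with `x₀x₂x₄x₆ = 1`, `x₀+x₂+x₄+x₆ = 0`,
`x₀x₁ + x₀x₃ + x₂x₃ + x₅x₆ = 0`. -/
def XS {K : Type} [Field K] (φ : K ≃+* K) : Set K :=
  {x | x * fr φ 2 x * fr φ 4 x * fr φ 6 x = 1 ∧ x + fr φ 2 x + fr φ 4 x + fr φ 6 x = 0 ∧
    x * fr φ 1 x + x * fr φ 3 x + fr φ 2 x * fr φ 3 x + fr φ 5 x * fr φ 6 x = 0}

/-- `β_x = x₅ / (x₀ x₂)`. -/
def bt {K : Type} [Field K] (φ : K ≃+* K) (x : K) : K := fr φ 5 x * (x * fr φ 2 x)⁻¹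

/-- The matrix of a scalar `a ∈ K`: the diagonal matrix with entries `a₀, a₂, a₄, a₆`. -/
noncomputable def dg {K : Type} [Field K] (φ : K ≃+* K) (a : K) : Mat K :=
  Matrix.diagonal fun i : Fin 4 => C (fr φ (2 * (i : ℕ)) a)

/-- The matrix of `z`. -/
noncomputable def Zm {K : Type} [Field K] : Mat K :=
  !![0, 1, 0, 0; 0, 0, 1, 0; 0, 0, 0, 1; X, 0, 0, 0]

/-- The matrix `1 + z + z² + z³`. -/
noncomputable def Um {K : Type} [Field K] : Mat K :=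
  !![1, 1, 1, 1; X, 1, 1, 1; X, X, 1, 1; X, X, X, 1]

/-- The matrix of `θ_x = β_x⁻¹ (1 + z) x⁻¹`. -/
noncomputable def th {K : Type} [Field K] (φ : K ≃+* K) (x : K) : Mat K :=
  dg φ (bt φ x)⁻¹ * (1 + Zm) * dg φ x⁻¹

/-- The matrix of `x (1 + z + z² + z³) β_x`, the adjugate of `θ_x`. -/
noncomputable def ad {K : Type} [Field K] (φ : K ≃+* K) (x : K) : Mat K :=
  dg φ x * Um * dg φ (bt φ x)

/-- `X^s E_ij` has degree `4 s + j - i`; `Fil d M`: all terms of `M` have degree `≥ d`. -/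
def Fil {K : Type} [Field K] (d : ℕ) (M : Mat K) : Prop :=
  ∀ i j : Fin 4, ∀ s : ℕ, 4 * s + (j : ℕ) < d + (i : ℕ) → (M i j).coeff s = 0

/-- Skew polynomial matrices: `σ(M) Z = Z M`. -/
def Cir {K : Type} [Field K] (φ : K ≃+* K) (M : Mat K) : Prop :=
  M.map (Polynomial.map (fr φ 2)) * Zm = Zm * M

/-- The word `∏_{i<n} θ(a_i) θ(b_i)^adj`. -/
noncomputable def wd {K : Type} [Field K] (φ : K ≃+* K) (a b : ℕ → K) : ℕ → Mat K
  | 0 => 1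
  | n + 1 => wd φ a b n * (th φ (a n) * ad φ (b n))

/-- The reversed word. -/
noncomputable def wr {K : Type} [Field K] (φ : K ≃+* K) (a b : ℕ → K) : ℕ → Mat K
  | 0 => 1
  | n + 1 => (th φ (b n) * ad φ (a n)) * wr φ a b n

/-- The flip `X^n φ⁵(M)(1/X)ᵀ`. -/
noncomputable def flp {K : Type} [Field K] (φ : K ≃+* K) (n : ℕ) (M : Mat K) : Mat K :=
  Matrix.of fun r c => Polynomial.reflect n ((M c r).map (fr φ 5))

/-- Reduced sequences of length `j`. -/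
def Red {A : Type} (a b : ℕ → A) (j : ℕ) : Prop :=
  (∀ i, i < j → a i ≠ b i) ∧ (∀ i, i + 1 < j → b i ≠ a (i + 1))

/-- `∏_{i<n} t(a_i) t(b_i)⁻¹` in a group. -/
def gprod {Q A : Type} [Group Q] (t : A → Q) (a b : ℕ → A) : ℕ → Q
  | 0 => 1
  | n + 1 => gprod t a b n * (t (a n) * (t (b n))⁻¹)

/-- The matrix of `z` over power series. -/
noncomputable def Zp {K : Type} [Field K] : PMat K :=
  !![0, 1, 0, 0; 0, 0, 1, 0; 0, 0, 0, 1; PowerSeries.X, 0, 0, 0]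

/-- Filtration on matrices over power series. -/
def Filp {K : Type} [Field K] (d : ℕ) (M : PMat K) : Prop :=
  ∀ i j : Fin 4, ∀ s : ℕ, 4 * s + (j : ℕ) < d + (i : ℕ) → PowerSeries.coeff s (M i j) = 0

/-- Matrices of skew power series: `σ(M) Z = Z M`. -/
def Circ {K : Type} [Field K] (φ : K ≃+* K) (M : PMat K) : Prop :=
  M.map (PowerSeries.map (fr φ 2)) * Zp = Zp * M

/-- The functional `a₀c₂+...`: the Hermitian form
`⟨a,c⟩ = a₁c₂ + a₁c₄ + a₃c₄ + a₇c₆`. -/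
def hf {K : Type} [Field K] (φ : K ≃+* K) (a c : K) : K :=
  fr φ 1 a * fr φ 2 c + fr φ 1 a * fr φ 4 c + fr φ 3 a * fr φ 4 c + fr φ 7 a * fr φ 6 c

/-- The second Hermitian form `⟪f,g⟫ = f₀g₅ + f₀g₇ + f₂g₇ + f₆g₁`. -/
def kf {K : Type} [Field K] (φ : K ≃+* K) (f g : K) : K :=
  f * fr φ 5 g + f * fr φ 7 g + fr φ 2 f * fr φ 7 g + fr φ 6 f * fr φ 1 g

/-- `γ_(a,c) = (c₀a₂ + c₂a₀)/a₅`: column direction of `θ_a θ_c^adj` at `X = 1`. -/
def gm {K : Type} [Field K] (φ : K ≃+* K) (a c : K) : K :=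
  (c * fr φ 2 a + fr φ 2 c * a) * (fr φ 5 a)⁻¹

/-- The trace `x₀ + x₂ + x₄ + x₆`. -/
def tr4 {K : Type} [Field K] (φ : K ≃+* K) (x : K) : K :=
  x + fr φ 2 x + fr φ 4 x + fr φ 6 x

/-! ### Statements of the modules -/

/-- MATA: the matrices `θ` and their adjugates. -/
def ST_MATA : Prop :=
  ∀ (K : Type) [Field K] (φ : K ≃+* K), Dat φ → ∀ x ∈ XS φ,
    th φ x * ad φ x = (1 + X : K[X]) • (1 : Mat K) ∧
    ad φ x * th φ x = (1 + X : K[X]) • (1 : Mat K) ∧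
    (th φ x).det = 1 + X ∧ (ad φ x).det = (1 + X) ^ 3 ∧ Cir φ (th φ x) ∧ Cir φ (ad φ x)

/-- MATB: unitarity, in the form of a relation between `θ_b θ_a^adj` and the flip of
`θ_a θ_b^adj`. -/
def ST_MATB : Prop :=
  ∀ (K : Type) [Field K] (φ : K ≃+* K), Dat φ → ∀ a ∈ XS φ, ∀ b ∈ XS φ,
    (th φ b * ad φ a) * Um = Um * flp φ 1 (th φ a * ad φ b) ∧
    (∀ (r c : Fin 4) (s : ℕ), 1 < s → ((th φ a * ad φ b) r c).coeff s = 0) ∧
    (Um : Mat K).det = (1 + X) ^ 3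

/-- EV: the value of `θ_a θ_c^adj` at `X = 1` has rank one. -/
def ST_EV : Prop :=
  ∀ (K : Type) [Field K] (φ : K ≃+* K), Dat φ → ∀ a ∈ XS φ, ∀ c ∈ XS φ, ∀ r s : Fin 4,
    ((th φ a * ad φ c) r s).eval 1 =
      fr φ (2 * (r : ℕ)) (gm φ a c) * fr φ (2 * (s : ℕ)) (bt φ c)

/-- NDA: the first Hermitian form. -/
def ST_NDA : Prop :=
  ∀ (K : Type) [Field K] (φ : K ≃+* K), Dat φ → ∀ a ∈ XS φ, ∀ c ∈ XS φ, a ≠ c →
    hf φ a c ≠ 0 ∧ gm φ a c ≠ 0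

/-- NDB: the second Hermitian form. -/
def ST_NDB : Prop :=
  ∀ (K : Type) [Field K] (φ : K ≃+* K), Dat φ → ∀ a ∈ XS φ, ∀ b ∈ XS φ, a ≠ b →
    kf φ (bt φ b) (bt φ a) ≠ 0

/-- PAIR: the pairing of consecutive directions. -/
def ST_PAIR : Prop :=
  ∀ (K : Type) [Field K] (φ : K ≃+* K), Dat φ → ∀ a ∈ XS φ, ∀ b ∈ XS φ, ∀ c ∈ XS φ,
    tr4 φ (bt φ b * gm φ a c) = kf φ (bt φ b) (bt φ a) * hf φ a c

/-- RNK: reduced words are of rank one modulo `(1+X)^j`, and do not vanish at `X = 1`. -/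
def ST_RNK : Prop :=
  ∀ (K : Type) [Field K] (φ : K ≃+* K), Dat φ → ∀ a b : ℕ → K,
    (∀ i, a i ∈ XS φ) → (∀ i, b i ∈ XS φ) → ∀ j : ℕ, 1 ≤ j → Red a b j →
    (∃ (u v : Fin 4 → K[X]) (S : Mat K), 
      wd φ a b j = Matrix.vecMulVec u v + ((1 + X : K[X]) ^ j) • S) ∧
    ∃ r c : Fin 4, (wd φ a b j r c).eval 1 ≠ 0

/-- DETR: determinant of a matrix which is of rank one modulo `p`. -/
def ST_DETR : Prop :=
  ∀ (R : Type) [CommRing R] [IsDomain R] (u v : Fin 4 → R) (S : Matrix (Fin 4) (Fin 4) R) (p : R),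
    p ^ 3 ∣ (Matrix.vecMulVec u v + p • S).det

/-- DETS: comparison of two determinants. -/
def ST_DETS : Prop :=
  ∀ (R : Type) [CommRing R] [IsDomain R] (M N : Matrix (Fin 4) (Fin 4) R) (s : R), s ≠ 0 →
    M * N = s ^ 2 • (1 : Matrix (Fin 4) (Fin 4) R) → M.det = s ^ 4 →
    (N - s • (1 : Matrix (Fin 4) (Fin 4) R)).det = (M - s • (1 : Matrix (Fin 4) (Fin 4) R)).det

/-- FLIP: the flip is an anti-homomorphism. -/
def ST_FLIP : Prop :=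
  ∀ (K : Type) [Field K] (φ : K ≃+* K) (m n : ℕ) (M N : Mat K),
    (∀ (r c : Fin 4) (s : ℕ), m < s → (M r c).coeff s = 0) →
    (∀ (r c : Fin 4) (s : ℕ), n < s → (N r c).coeff s = 0) →
    flp φ (m + n) (M * N) = flp φ n N * flp φ m M ∧
    (∀ (r c : Fin 4) (s : ℕ), m + n < s → ((M * N) r c).coeff s = 0) ∧
    (flp φ m M).det = Polynomial.reflect (4 * m) (M.det.map (fr φ 5)) ∧
    (∀ s : ℕ, 4 * m < s → M.det.coeff s = 0)

/-- PROD: words. -/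
def ST_PROD : Prop :=
  ∀ (K : Type) [Field K] (φ : K ≃+* K), Dat φ → ∀ a b : ℕ → K,
    (∀ i, a i ∈ XS φ) → (∀ i, b i ∈ XS φ) → ∀ j : ℕ,
    wd φ a b j * wr φ a b j = ((1 + X : K[X]) ^ j) ^ 2 • (1 : Mat K) ∧
    (wd φ a b j).det = ((1 + X : K[X]) ^ j) ^ 4 ∧
    (∀ (r c : Fin 4) (s : ℕ), j < s → (wd φ a b j r c).coeff s = 0) ∧
    wr φ a b j * Um = Um * flp φ j (wd φ a b j) ∧
    Cir φ (wd φ a b j)

/-- SYM: symmetry of the determinant of `W - (1+X)^j`. -/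
def ST_SYM : Prop :=
  ∀ (K : Type) [Field K] (φ : K ≃+* K), Dat φ → ∀ a b : ℕ → K,
    (∀ i, a i ∈ XS φ) → (∀ i, b i ∈ XS φ) → ∀ j : ℕ, ∀ t : ℕ,
    (wd φ a b j - ((1 + X : K[X]) ^ j) • (1 : Mat K)).det.coeff t =
      if t ≤ 4 * j then
        fr φ 5 ((wd φ a b j - ((1 + X : K[X]) ^ j) • (1 : Mat K)).det.coeff (4 * j - t)) else 0

/-- VAN: a divisible polynomial with the symmetry of `ST_SYM` and high order at `0` vanishes. -/
def ST_VAN : Prop :=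
  ∀ (K : Type) [Field K] (ψ : K →+* K) (p : K[X]) (j d : ℕ), (2 : K) = 0 → j < 2 * d →
    (1 + X) ^ (3 * j) ∣ p → (∀ t, t < d → p.coeff t = 0) →
    (∀ t, p.coeff t = if t ≤ 4 * j then ψ (p.coeff (4 * j - t)) else 0) → p = 0

/-- DIV: skew polynomials form a domain. -/
def ST_DIV : Prop :=
  ∀ (K : Type) [Field K] (φ : K ≃+* K) (M : Mat K), Cir φ M → M ≠ 0 → M.det ≠ 0

/-- ORD: order of the determinant. -/
def ST_ORD : Prop :=
  ∀ (K : Type) [Field K] (d s : ℕ) (M : Mat K), Fil d M → s < d → M.det.coeff s = 0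

/-- REL: a short reduced word is not congruent to `(1+X)^j`. -/
def ST_REL : Prop :=
  ∀ (K : Type) [Field K] (φ : K ≃+* K), Dat φ → ∀ a b : ℕ → K,
    (∀ i, a i ∈ XS φ) → (∀ i, b i ∈ XS φ) → ∀ d j : ℕ, 1 ≤ j → j < 2 * d → Red a b j →
    ¬ Fil d (wd φ a b j - ((1 + X : K[X]) ^ j) • (1 : Mat K))

/-- IDX: the group of skew power series of norm one and its congruence subgroups. -/
def ST_IDX : Prop :=
  ∀ (K : Type) [Field K] [Finite K] (φ : K ≃+* K), Dat φ →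
    ∃ G : Subgroup (PMat K)ˣ, (∀ g : (PMat K)ˣ, g ∈ G ↔ Circ φ g.val ∧ g.val.det = 1) ∧
    ∀ d : ℕ, 1 ≤ d → ∃ N : Subgroup G, N.Normal ∧
      (∀ g : G, g ∈ N ↔ Filp d (g.val.val - 1)) ∧ N.index ≠ 0 ∧
      N.index ≤ Nat.card {x : K // x * fr φ 2 x * fr φ 4 x * fr φ 6 x = 1} *
        Nat.card K ^ (d - 1 - (d - 1) / 4) * Nat.card {x : K // tr4 φ x = 0} ^ ((d - 1) / 4)

/-- GRP: the finite group and the elements `t`. -/
def ST_GRP : Prop :=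
  ∀ (K : Type) [Field K] [Finite K] (φ : K ≃+* K), Dat φ → ∀ d : ℕ, 1 ≤ d →
    ∃ (Q : Type) (_ : Group Q) (_ : Finite Q) (t : XS φ → Q),
      Nat.card Q ≤ Nat.card {x : K // x * fr φ 2 x * fr φ 4 x * fr φ 6 x = 1} *
        Nat.card K ^ (d - 1 - (d - 1) / 4) * Nat.card {x : K // tr4 φ x = 0} ^ ((d - 1) / 4) ∧
      ∀ (a b : ℕ → XS φ) (j : ℕ), 1 ≤ j → j < 2 * d → Red a b j → gprod t a b j ≠ 1

/-- FLD: the fields, with upper bounds for the number of elements of norm one and trace zero. -/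
def ST_FLD : Prop :=
  ∀ r : ℕ, 1 ≤ r → ∃ (K : Type) (_ : Field K) (_ : Finite K) (φ : K ≃+* K), Dat φ ∧
    Nat.card K = (2 ^ r) ^ 8 ∧ (∀ x : K, φ x = x ^ (2 ^ r)) ∧
    Nat.card {x : K // x * fr φ 2 x * fr φ 4 x * fr φ 6 x = 1} ≤ 2 * (2 ^ r) ^ 6 ∧
    Nat.card {x : K // tr4 φ x = 0} ≤ (2 ^ r) ^ 6

/-- NUM: the number of elements of `XS`. -/
def ST_NUM : Prop :=
  ∀ (K : Type) [Field K] [Finite K] (φ : K ≃+* K) (r : ℕ), 1 ≤ r → Dat φ →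
    Nat.card K = (2 ^ r) ^ 8 → (∀ x : K, φ x = x ^ (2 ^ r)) → (2 ^ r) ^ 3 ≤ Nat.card (XS φ)

/-- HAAR: the bipartite graph `(g,0) ~ (g t(x), 1)`. -/
def ST_HAAR : Prop :=
  ∀ (Q A : Type) [Group Q] [Finite Q] [Finite A] (t : A → Q) (k : ℕ), 1 ≤ k →
    (∀ (a b : ℕ → A) (j : ℕ), 1 ≤ j → j ≤ k → Red a b j → gprod t a b j ≠ 1) →
    ∃ (V : Type) (_ : Finite V) (_ : Nonempty V) (G : SimpleGraph V),
      Nat.card V = 2 * Nat.card Q ∧ (∀ v : V, (G.neighborSet v).ncard = Nat.card A) ∧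
      ∀ (u : V) (w : G.Walk u u), w.IsCycle → 2 * k + 2 ≤ w.length

/-- COPY: disjoint copies and isolated vertices. -/
def ST_COPY : Prop :=
  ∀ (V : Type) [Finite V] [Nonempty V] (G : SimpleGraph V) (k q n : ℕ),
    (∀ v : V, (G.neighborSet v).ncard = q) →
    (∀ (u : V) (w : G.Walk u u), w.IsCycle → k ≤ w.length) → Nat.card V ≤ n →
    ∃ H : SimpleGraph (Fin n), (∀ (u : Fin n) (w : H.Walk u u), w.IsCycle → k ≤ w.length) ∧
      n * q ≤ 4 * H.edgeSet.ncard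

/-- FIN: the theorem for degree four. -/
def ST_FIN : Prop :=
  ∀ d : ℕ, 1 ≤ d →
    ∃ c : ℝ, 0 < c ∧ ∃ N : ℕ, ∀ n : ℕ, N ≤ n → ∃ G : SimpleGraph (Fin n),
      (∀ (u : Fin n) (w : G.Walk u u), w.IsCycle → 4 * d ≤ w.length) ∧
      c * (n : ℝ) ^ ((1 : ℝ) + 3 / ((8 * d - 2 - 2 * ((d - 1) / 4) : ℕ) : ℝ)) ≤
        (G.edgeSet.ncard : ℝ)

end Pool.Agent.Helper51.GT
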