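import Pool.Agent.Helper23.GT.MATA
import Pool.Agent.Helper23.GT.PROD
import Pool.Agent.Helper23.GT.REL
import Pool.Agent.Helper23.GT.VAN
import Pool.Agent.Helper26.GT.IDX
import Pool.Agent.Helper38.GT.MATB
import Pool.Agent.Helper50.GT.COPY
import Pool.Agent.Helper50.GT.FIN
import Pool.Agent.Helper50.GT.HAAR
import Pool.Agent.Helper50.GT.NUM
import Pool.Agent.Helper69.GT.NDA
import Pool.Agent.Helper69.GT.NDB
import Pool.Agent.Helper69.GT.PAIR
import Pool.Agent.Helper72.GT.FLIP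
import Pool.Agent.Helper72.GT.SYM
import Pool.Agent.Helper74.GT.DIV
import Pool.Agent.Helper74.GT.FLD
import Pool.Agent.Helper9.GT.DETR
import Pool.Agent.Helper9.GT.DETS
import Pool.Agent.Helper9.GT.EV
import Pool.Agent.Helper92.GT.GRP
import Pool.Agent.Helper92.GT.ORD
import Pool.Agent.Helper92.GT.RNK

set_option autoImplicit false

/-! Assembly of the modules. -/

namespace Pool.Agent.Helper51.GT

theorem all_GRP : ST_GRP :=
  have hPROD := st_PROD st_MATA st_MATB st_FLIP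
  have hRNK := st_RNK st_EV st_PAIR st_NDA st_NDB
  have hSYM := st_SYM hPROD st_FLIP st_DETS st_MATB
  have hREL := st_REL hRNK st_DETR hSYM st_VAN st_DIV st_ORD hPROD
  st_GRP st_MATA hREL st_IDX

/-- The uniform form of the theorem. -/
theorem all_main (d : ℕ) (hd : 1 ≤ d) (n : ℕ) (hn : 2 ≤ n) :
    ∃ G : SimpleGraph (Fin n),
      (∀ (u : Fin n) (w : G.Walk u u), w.IsCycle → 4 * d ≤ w.length) ∧
      (n : ℝ) ^ ((1 : ℝ) + 3 / ((8 * d - 2 - 2 * ((d - 1) / 4) : ℕ) : ℝ)) ≤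
        64 * (G.edgeSet.ncard : ℝ) :=
  fin_main all_GRP st_HAAR st_FLD st_NUM st_COPY d hd n hn

end Pool.Agent.Helper51.GT
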