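import Mathlib
import Pool.Agent.Helper51.GT.ALL

set_option autoImplicit false

namespace Pool.Agent.Helper51.GT.EightFifths

open Pool.Agent.Helper51.GT

/-- For all `m ≥ 1` and `n ≥ 2` there is a graph on `n` vertices without cycles of length at most
`2m` and with at least `n^(1 + 3/v) / 64` edges, where `v = 8 ⌊m/2⌋ + 6 - 2 ⌊m/8⌋`. -/
theorem eight_fifths (m n : ℕ) (hm : 1 ≤ m) (hn : 2 ≤ n) :
    ∃ G : SimpleGraph (Fin n),
      ((2 * m : ℕ) : ℕ∞) < G.egirth ∧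
      (1 / 64 : ℝ) * (n : ℝ) ^ ((1 : ℝ) + 3 / ((8 * (m / 2) + 6 - 2 * (m / 8) : ℕ) : ℝ)) ≤
        (G.edgeSet.ncard : ℝ) := by
  obtain ⟨G, h1, h2⟩ := all_main (m / 2 + 1) (by omega) n hn
  refine ⟨G, ?_, ?_⟩
  · have h3 : ((2 * m + 1 : ℕ) : ℕ∞) ≤ G.egirth := by
      rw [SimpleGraph.le_egirth]
      intro a w hw
      have := h1 a w hw
      exact_mod_cast (by omega : 2 * m + 1 ≤ w.length)
    refine lt_of_lt_of_le ?_ h3
    exact_mod_cast Nat.lt_succ_self (2 * m)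
  · have hv : 8 * (m / 2) + 6 - 2 * (m / 8) =
        8 * (m / 2 + 1) - 2 - 2 * ((m / 2 + 1 - 1) / 4) := by omega
    rw [hv]
    linarith

end Pool.Agent.Helper51.GT.EightFifths
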