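import Pool.Agent.Helper51.GT.Defs

set_option autoImplicit false

/-! Small library for the modules of `Pool.Agent.Helper51.GT`. -/

namespace Pool.Agent.Helper51.GT.Lib

open Polynomial

variable {K : Type} [Field K] {φ : K ≃+* K}

theorem fr_zero (x : K) : fr φ 0 x = x := by simp [fr]

theorem fr_one (x : K) : fr φ 1 x = φ x := by simp [fr]

theorem fr_succ (i : ℕ) (x : K) : fr φ (i + 1) x = φ (fr φ i x) := by
  simp [fr, pow_succ', RingHom.mul_def]

theorem fr_fr (i j : ℕ) (x : K) : fr φ i (fr φ j x) = fr φ (i + j) x := by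
  simp [fr, pow_add, RingHom.mul_def]

theorem fr_add8 (h : Dat φ) (i : ℕ) (x : K) : fr φ (i + 8) x = fr φ i x := by
  rw [← fr_fr, h.ord]

theorem fr_mod (h : Dat φ) (i : ℕ) (x : K) : fr φ i x = fr φ (i % 8) x := by
  conv_lhs => rw [← Nat.mod_add_div i 8]
  generalize i % 8 = a
  generalize i / 8 = b
  induction b with
  | zero => simp
  | succ n ih => rw [Nat.mul_succ, ← add_assoc, fr_add8 h, ih]

theorem fr_inj (i : ℕ) : Function.Injective (fr φ i : K → K) := (fr φ i).injective

theorem neg_eq (h : Dat φ) (x : K) : -x = x := by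
  have : (2 : K) * x = 0 := by rw [h.two, zero_mul]
  linear_combination (-1 : K) * this

theorem add_self (h : Dat φ) (x : K) : x + x = 0 := by
  have : (2 : K) * x = 0 := by rw [h.two, zero_mul]
  linear_combination this

theorem two_poly (h : Dat φ) : (2 : K[X]) = 0 := by
  have h1 : (C (2 : K) : K[X]) = 0 := by rw [h.two, map_zero]
  have h3 : (C (2 : K) : K[X]) = 2 := by
    rw [show (2 : K) = 1 + 1 by norm_num, map_add, map_one]; norm_num
  rw [← h3, h1]

theorem dg_mul (a b : K) : dg φ a * dg φ b = dg φ (a * b) := by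
  simp [dg, Matrix.diagonal_mul_diagonal]

theorem dg_one : dg φ (1 : K) = 1 := by
  simp [dg]

theorem dg_inv {a : K} (ha : a ≠ 0) : dg φ a * dg φ a⁻¹ = 1 := by
  rw [dg_mul, mul_inv_cancel₀ ha, dg_one]

theorem dg_inv' {a : K} (ha : a ≠ 0) : dg φ a⁻¹ * dg φ a = 1 := by
  rw [dg_mul, inv_mul_cancel₀ ha, dg_one]

theorem dg_add (a b : K) : dg φ (a + b) = dg φ a + dg φ b := by
  simp [dg, Matrix.diagonal_add]

theorem Zm_dg (h : Dat φ) (a : K) : (Zm : Mat K) * dg φ a = dg φ (fr φ 2 a) * Zm := by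
  have h8 : fr φ 8 a = a := h.ord a
  refine Matrix.ext fun i j => ?_
  rw [dg, dg, Matrix.mul_diagonal, Matrix.diagonal_mul]
  fin_cases i <;> fin_cases j <;> simp [Zm, fr_fr, fr_zero, h8, mul_comm X]

theorem dg_det (a : K) :
    (dg φ a).det = C (a * fr φ 2 a * fr φ 4 a * fr φ 6 a) := by
  simp [dg, Matrix.det_diagonal, Fin.prod_univ_four, fr_zero]

theorem Um_eq : (Um : Mat K) = 1 + Zm + Zm * Zm + Zm * Zm * Zm := by
  refine Matrix.ext fun i j => ?_
  fin_cases i <;> fin_cases j <;>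
    simp [Zm, Um, Matrix.add_apply, Matrix.one_apply]

theorem Z4 : (Zm : Mat K) * Zm * Zm * Zm = (X : K[X]) • (1 : Mat K) := by
  refine Matrix.ext fun i j => ?_
  fin_cases i <;> fin_cases j <;>
    simp [Zm, Matrix.one_apply]

theorem P_Um (h : Dat φ) : (1 + Zm : Mat K) * Um = (1 + X : K[X]) • (1 : Mat K) := by
  have h2 := two_poly h
  refine Matrix.ext fun i j => ?_
  fin_cases i <;> fin_cases j <;>
    simp [Zm, Um, Matrix.mul_apply, Fin.sum_univ_four, Matrix.add_apply, Matrix.one_apply] <;>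
    first | done | linear_combination h2 | linear_combination X * h2 | ring

theorem Um_P (h : Dat φ) : (Um : Mat K) * (1 + Zm) = (1 + X : K[X]) • (1 : Mat K) := by
  have h2 := two_poly h
  refine Matrix.ext fun i j => ?_
  fin_cases i <;> fin_cases j <;>
    simp [Zm, Um, Matrix.mul_apply, Fin.sum_univ_four, Matrix.add_apply, Matrix.one_apply] <;>
    first | done | linear_combination h2 | linear_combination X * h2 | ring

theorem Zm_Um : (Zm : Mat K) * Um = Um * Zm := by
  rw [Um_eq]; noncomm_ring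

theorem bt_ne {x : K} (hx : x ≠ 0) : bt φ x ≠ 0 := by
  have h1 : fr φ 5 x ≠ 0 := (_root_.map_ne_zero _).2 hx
  have h2 : fr φ 2 x ≠ 0 := (_root_.map_ne_zero _).2 hx
  exact mul_ne_zero h1 (inv_ne_zero (mul_ne_zero hx h2))

theorem XS_ne {x : K} (hx : x ∈ XS φ) : x ≠ 0 := by
  rintro rfl
  have := hx.1
  simp at this

end Pool.Agent.Helper51.GT.Lib
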